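import Mathlib

/-!
Quantitative tightness for almost minimisers of a pair interaction energy.
-/

set_option linter.unusedSectionVars false

namespace Pool.Agent.MP_bbfed3_an

open Set Filter Topology MeasureTheory ENNReal

variable {E : Type*} [NormedAddCommGroup E] [ProperSpace E] [MeasurableSpace E] [BorelSpace E]

/-- pair interaction energy (without the factor one half) -/
noncomputable def J (V : E → ℝ≥0∞) (μ : Measure E) : ℝ≥0∞ := ∫⁻ z, V (z.1 - z.2) ∂(μ.prod μ)

/-- infimum of the energy over probability measures -/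
noncomputable def Jinf (V : E → ℝ≥0∞) : ℝ≥0∞ := ⨅ μ : ProbabilityMeasure E, J V (μ : Measure E)

lemma measurable_diff {V : E → ℝ≥0∞} (hV : Measurable V) :
    Measurable fun z : E × E => V (z.1 - z.2) :=
  hV.comp (measurable_fst.sub measurable_snd)

omit [BorelSpace E] in
lemma J_smul (V : E → ℝ≥0∞) (μ : Measure E) [IsFiniteMeasure μ] (c : ℝ≥0∞) (hc : c ≠ ⊤) :
    J V (c • μ) = c * (c * J V μ) := by
  have : IsFiniteMeasure (c • μ) := μ.smul_finite hc
  rw [J, Measure.prod_smul_left, Measure.prod_smul_right, lintegral_smul_measure,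
    lintegral_smul_measure]
  rfl

lemma J_lower (V : E → ℝ≥0∞) (ν : Measure E) [IsFiniteMeasure ν] :
    ν univ * (ν univ * Jinf V) ≤ J V ν := by
  by_cases h0 : ν univ = 0
  · rw [h0]; simp
  have hfin : ν univ ≠ ⊤ := measure_ne_top _ _
  set c := ν univ with hc
  have hp : IsProbabilityMeasure (c⁻¹ • ν) := ⟨by
    rw [Measure.smul_apply, smul_eq_mul]
    exact ENNReal.inv_mul_cancel h0 hfin⟩
  have h1 : Jinf V ≤ J V (c⁻¹ • ν) := iInf_le (fun μ : ProbabilityMeasure E => J V (μ : Measure E))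
    ⟨c⁻¹ • ν, hp⟩
  rw [J_smul V ν c⁻¹ (ENNReal.inv_ne_top.2 h0)] at h1
  calc c * (c * Jinf V) ≤ c * (c * (c⁻¹ * (c⁻¹ * J V ν))) := by gcongr
    _ = (c * c⁻¹) * ((c * c⁻¹) * J V ν) := by ring
    _ = J V ν := by rw [ENNReal.mul_inv_cancel h0 hfin, one_mul, one_mul]

lemma J_split {V : E → ℝ≥0∞} (hV : Measurable V) (hVs : ∀ x, V (-x) = V x) (μ : Measure E)
    [IsFiniteMeasure μ] {A : Set E} (hA : MeasurableSet A) :
    J V μ = J V (μ.restrict A) + J V (μ.restrict Aᶜ) +
      2 * ∫⁻ z, V (z.1 - z.2) ∂((μ.restrict A).prod (μ.restrict Aᶜ)) := by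
  have hμ : μ = μ.restrict A + μ.restrict Aᶜ := (Measure.restrict_add_restrict_compl hA).symm
  have hsw : ∫⁻ z, V (z.1 - z.2) ∂((μ.restrict Aᶜ).prod (μ.restrict A)) =
      ∫⁻ z, V (z.1 - z.2) ∂((μ.restrict A).prod (μ.restrict Aᶜ)) := by
    rw [← Measure.prod_swap, lintegral_map (measurable_diff hV) measurable_swap]
    refine lintegral_congr fun z => ?_
    rw [Prod.fst_swap, Prod.snd_swap, ← hVs, neg_sub]
  conv_lhs => rw [J, hμ]
  rw [Measure.prod_add, Measure.add_prod, Measure.add_prod, lintegral_add_measure,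
    lintegral_add_measure, lintegral_add_measure, hsw, J, J]
  ring

omit [BorelSpace E] in
lemma sep_measure (μ : Measure E) [IsProbabilityMeasure μ] {A A' : Set E}
    (hA : MeasurableSet A) (hA' : MeasurableSet A') (R : ℝ)
    (hsep : ∀ x ∈ A', ∀ y, ‖x - y‖ < R → y ∈ A) :
    ((μ.restrict A).prod (μ.restrict Aᶜ)) {z | ‖z.1 - z.2‖ < R} ≤ μ (A \ A') := by
  have hsub : {z : E × E | ‖z.1 - z.2‖ < R} ⊆ (A'ᶜ ×ˢ univ) ∪ (univ ×ˢ A) := by
    rintro ⟨x, y⟩ hxy
    by_cases hx : x ∈ A'
    · right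
      exact ⟨mem_univ _, hsep x hx y hxy⟩
    · left
      exact ⟨hx, mem_univ _⟩
  calc ((μ.restrict A).prod (μ.restrict Aᶜ)) {z | ‖z.1 - z.2‖ < R}
      ≤ ((μ.restrict A).prod (μ.restrict Aᶜ)) ((A'ᶜ ×ˢ univ) ∪ (univ ×ˢ A)) := measure_mono hsub
    _ ≤ ((μ.restrict A).prod (μ.restrict Aᶜ)) (A'ᶜ ×ˢ univ) +
        ((μ.restrict A).prod (μ.restrict Aᶜ)) (univ ×ˢ A) := measure_union_le _ _
    _ = μ (A \ A') * μ Aᶜ + μ A * 0 := by
      rw [Measure.prod_prod, Measure.prod_prod, Measure.restrict_apply hA'.compl,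
        Measure.restrict_apply_univ, Measure.restrict_apply_univ, Measure.restrict_apply hA]
      rw [inter_compl_self, measure_empty, sdiff_eq, inter_comm A A'ᶜ]
    _ ≤ μ (A \ A') * 1 + 0 := by
      rw [mul_zero]
      gcongr
      exact prob_le_one
    _ = μ (A \ A') := by ring

/-- The basic one-step inequality. -/
lemma step {V : E → ℝ≥0∞} (hV : Measurable V) (hVs : ∀ x, V (-x) = V x) {L g η R : ℝ}
    (hg : 0 < g) (hgL : g ≤ L) (hη : 0 ≤ η)
    (hR : ∀ x, R ≤ ‖x‖ → ENNReal.ofReal L ≤ V x) (μ : Measure E) [IsProbabilityMeasure μ]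
    (hJ : J V μ ≤ Jinf V + ENNReal.ofReal η) (hgap : Jinf V ≤ ENNReal.ofReal (L - g))
    {A A' : Set E} (hA : MeasurableSet A) (hA' : MeasurableSet A') (hAA' : A' ⊆ A)
    (hsep : ∀ x ∈ A', ∀ y, ‖x - y‖ < R → y ∈ A) :
    g * μ.real A * (1 - μ.real A) ≤ η / 2 + L * (μ.real A - μ.real A') := by
  set I := ∫⁻ z, V (z.1 - z.2) ∂((μ.restrict A).prod (μ.restrict Aᶜ)) with hI
  set P := ((μ.restrict A).prod (μ.restrict Aᶜ)) {z | ‖z.1 - z.2‖ < R} with hP
  set θ := μ.real A with hθ
  have hfin : Jinf V ≠ ⊤ := ne_top_of_le_ne_top ENNReal.ofReal_ne_top hgap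
  set s := (Jinf V).toReal with hs
  have hJs : Jinf V = ENNReal.ofReal s := (ENNReal.ofReal_toReal hfin).symm
  have hs0 : 0 ≤ s := ENNReal.toReal_nonneg
  have hsg : s ≤ L - g := by
    rw [hJs] at hgap
    exact (ENNReal.ofReal_le_ofReal_iff (by linarith)).1 hgap
  have hθ0 : 0 ≤ θ := measureReal_nonneg
  have hθ1 : θ ≤ 1 := measureReal_le_one
  have hμA : μ A = ENNReal.ofReal θ := by rw [hθ, ofReal_measureReal]
  have hμAc : μ Aᶜ = ENNReal.ofReal (1 - θ) := by
    rw [prob_compl_eq_one_sub hA, hμA, ← ENNReal.ofReal_one, ENNReal.ofReal_sub _ hθ0]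
  -- first inequality
  have h1 : ENNReal.ofReal (θ * (θ * s)) + ENNReal.ofReal ((1 - θ) * ((1 - θ) * s)) + 2 * I ≤
      ENNReal.ofReal (s + η) := by
    have h2 := J_lower V (μ.restrict A)
    have h3 := J_lower V (μ.restrict Aᶜ)
    rw [Measure.restrict_apply_univ, hμA, hJs, ← ENNReal.ofReal_mul hθ0,
      ← ENNReal.ofReal_mul hθ0] at h2
    rw [Measure.restrict_apply_univ, hμAc, hJs, ← ENNReal.ofReal_mul (by linarith),
      ← ENNReal.ofReal_mul (by linarith)] at h3
    calc _ ≤ J V (μ.restrict A) + J V (μ.restrict Aᶜ) + 2 * I := by gcongr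
      _ = J V μ := (J_split hV hVs μ hA).symm
      _ ≤ Jinf V + ENNReal.ofReal η := hJ
      _ = ENNReal.ofReal (s + η) := by rw [hJs, ENNReal.ofReal_add hs0 hη]
  have hIfin : I ≠ ⊤ := by
    intro hItop
    rw [hItop] at h1
    simp at h1
  set i := I.toReal with hi
  have hIi : I = ENNReal.ofReal i := (ENNReal.ofReal_toReal hIfin).symm
  have hi0 : 0 ≤ i := ENNReal.toReal_nonneg
  have h1' : θ * (θ * s) + (1 - θ) * ((1 - θ) * s) + 2 * i ≤ s + η := by
    have ha : 0 ≤ θ * (θ * s) := by positivity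
    have hb : 0 ≤ (1 - θ) * ((1 - θ) * s) :=
      mul_nonneg (by linarith) (mul_nonneg (by linarith) hs0)
    rw [hIi, show (2 : ℝ≥0∞) = ENNReal.ofReal 2 by simp, ← ENNReal.ofReal_mul (by norm_num),
      ← ENNReal.ofReal_add ha hb, ← ENNReal.ofReal_add (by positivity) (by positivity)] at h1
    exact (ENNReal.ofReal_le_ofReal_iff (by positivity)).1 h1
  -- second inequality
  have hPm : MeasurableSet {z : E × E | ‖z.1 - z.2‖ < R} :=
    measurableSet_lt (measurable_fst.sub measurable_snd).norm measurable_const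
  have h4 : ENNReal.ofReal L * (μ A * μ Aᶜ) ≤ I + ENNReal.ofReal L * P := by
    have h5 : ∀ z : E × E, ENNReal.ofReal L ≤ V (z.1 - z.2) +
        ENNReal.ofReal L * ({z : E × E | ‖z.1 - z.2‖ < R}.indicator 1 z) := by
      intro z
      by_cases hz : ‖z.1 - z.2‖ < R
      · rw [indicator_of_mem (by exact hz), Pi.one_apply, mul_one]
        exact le_add_self
      · rw [indicator_of_notMem (by exact hz), mul_zero, add_zero]
        exact hR _ (not_lt.1 hz)
    calc ENNReal.ofReal L * (μ A * μ Aᶜ)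
        = ∫⁻ _, ENNReal.ofReal L ∂((μ.restrict A).prod (μ.restrict Aᶜ)) := by
          rw [lintegral_const, ← univ_prod_univ, Measure.prod_prod, Measure.restrict_apply_univ,
            Measure.restrict_apply_univ]
      _ ≤ ∫⁻ z, (V (z.1 - z.2) +
        ENNReal.ofReal L * ({z : E × E | ‖z.1 - z.2‖ < R}.indicator 1 z))
          ∂((μ.restrict A).prod (μ.restrict Aᶜ)) := lintegral_mono h5
      _ = I + ENNReal.ofReal L * P := by
          rw [lintegral_add_left (measurable_diff hV), lintegral_const_mul _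
            (measurable_one.indicator hPm), lintegral_indicator_one hPm]
  have hPfin : P ≠ ⊤ := measure_ne_top _ _
  have hP1 : P.toReal ≤ θ - μ.real A' := by
    have h6 := sep_measure μ hA hA' R hsep
    have h7 : μ (A \ A') = ENNReal.ofReal (θ - μ.real A') := by
      rw [← measureReal_sdiff hAA' hA', ofReal_measureReal]
    rw [h7] at h6
    refine ENNReal.toReal_le_of_le_ofReal ?_ h6
    rw [← measureReal_sdiff hAA' hA']
    exact measureReal_nonneg
  have h4' : L * (θ * (1 - θ)) ≤ i + L * P.toReal := by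
    rw [hμA, hμAc, hIi, ← ENNReal.ofReal_toReal hPfin, ← ENNReal.ofReal_mul hθ0,
      ← ENNReal.ofReal_mul (by linarith), ← ENNReal.ofReal_mul (by linarith),
      ← ENNReal.ofReal_add hi0 (mul_nonneg (by linarith) ENNReal.toReal_nonneg)] at h4
    exact (ENNReal.ofReal_le_ofReal_iff
      (add_nonneg hi0 (mul_nonneg (by linarith) ENNReal.toReal_nonneg))).1 h4
  have h8 : 0 ≤ θ * (1 - θ) := mul_nonneg hθ0 (by linarith)
  have h9 : L * P.toReal ≤ L * (θ - μ.real A') := mul_le_mul_of_nonneg_left hP1 (by linarith)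
  have h10 : (L - s) * (θ * (1 - θ)) ≤ η / 2 + L * P.toReal := by nlinarith
  have h11 : g * (θ * (1 - θ)) ≤ (L - s) * (θ * (1 - θ)) :=
    mul_le_mul_of_nonneg_right (by linarith) h8
  linarith

/-- No vanishing: some ball of radius `R` has mass at least `(g - η) / L`. -/
lemma no_vanishing {V : E → ℝ≥0∞} (hV : Measurable V) {L g η R : ℝ}
    (hg : 0 < g) (hgL : g ≤ L) (hη : 0 ≤ η)
    (hR : ∀ x, R ≤ ‖x‖ → ENNReal.ofReal L ≤ V x) (μ : Measure E) [IsProbabilityMeasure μ]
    (hJ : J V μ ≤ Jinf V + ENNReal.ofReal η) (hgap : Jinf V ≤ ENNReal.ofReal (L - g)) :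
    ∃ x : E, (g - η) / L ≤ μ.real (Metric.ball x R) := by
  have hL : 0 < L := by linarith
  have hPm : MeasurableSet {z : E × E | ‖z.1 - z.2‖ < R} :=
    measurableSet_lt (measurable_fst.sub measurable_snd).norm measurable_const
  set P := (μ.prod μ) {z | ‖z.1 - z.2‖ < R} with hP
  have h4 : ENNReal.ofReal L ≤ J V μ + ENNReal.ofReal L * P := by
    have h5 : ∀ z : E × E, ENNReal.ofReal L ≤ V (z.1 - z.2) +
        ENNReal.ofReal L * ({z : E × E | ‖z.1 - z.2‖ < R}.indicator 1 z) := by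
      intro z
      by_cases hz : ‖z.1 - z.2‖ < R
      · rw [indicator_of_mem (by exact hz), Pi.one_apply, mul_one]
        exact le_add_self
      · rw [indicator_of_notMem (by exact hz), mul_zero, add_zero]
        exact hR _ (not_lt.1 hz)
    calc ENNReal.ofReal L
        = ∫⁻ _, ENNReal.ofReal L ∂(μ.prod μ) := by
          rw [lintegral_const, measure_univ, mul_one]
      _ ≤ ∫⁻ z, (V (z.1 - z.2) +
        ENNReal.ofReal L * ({z : E × E | ‖z.1 - z.2‖ < R}.indicator 1 z))
          ∂(μ.prod μ) := lintegral_mono h5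
      _ = J V μ + ENNReal.ofReal L * P := by
          rw [lintegral_add_left (measurable_diff hV), lintegral_const_mul _
            (measurable_one.indicator hPm), lintegral_indicator_one hPm]
          rfl
  have hPfin : P ≠ ⊤ := measure_ne_top _ _
  have h6 : L ≤ (L - g) + η + L * P.toReal := by
    have h7 : ENNReal.ofReal L ≤ ENNReal.ofReal ((L - g) + η + L * P.toReal) := by
      calc ENNReal.ofReal L ≤ J V μ + ENNReal.ofReal L * P := h4
        _ ≤ (ENNReal.ofReal (L - g) + ENNReal.ofReal η) + ENNReal.ofReal L * P := by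
          gcongr
          exact hJ.trans (by gcongr)
        _ = ENNReal.ofReal ((L - g) + η + L * P.toReal) := by
          rw [ENNReal.ofReal_add (by linarith) (mul_nonneg hL.le ENNReal.toReal_nonneg),
            ENNReal.ofReal_add (by linarith) hη, ENNReal.ofReal_mul hL.le,
            ENNReal.ofReal_toReal hPfin]
    refine (ENNReal.ofReal_le_ofReal_iff ?_).1 h7
    have := mul_nonneg hL.le (ENNReal.toReal_nonneg (a := P))
    linarith
  -- Fubini
  have h8 : P = ∫⁻ x, μ (Metric.ball x R) ∂μ := by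
    rw [hP, Measure.prod_apply hPm]
    refine lintegral_congr fun x => ?_
    congr 1
    ext y
    simp only [mem_preimage, Metric.mem_ball, dist_eq_norm]
    rw [norm_sub_rev y x]
    rfl
  obtain ⟨x, hx⟩ := exists_lintegral_le (μ := μ) (f := fun x => μ (Metric.ball x R))
    (by rw [← h8]; exact hPfin)
  refine ⟨x, ?_⟩
  rw [← h8] at hx
  have h9 : P.toReal ≤ μ.real (Metric.ball x R) := ENNReal.toReal_mono (measure_ne_top _ _) hx
  rw [div_le_iff₀ hL]
  nlinarith

/-- Quantitative tightness around a ball of non-trivial mass. -/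
lemma tail {V : E → ℝ≥0∞} (hV : Measurable V) (hVs : ∀ x, V (-x) = V x) {L g η R θ₀ : ℝ}
    (hg : 0 < g) (hgL : g ≤ L) (hη : 0 ≤ η) (hR0 : 0 ≤ R) (hθ₀ : 0 < θ₀)
    (hR : ∀ x, R ≤ ‖x‖ → ENNReal.ofReal L ≤ V x) (μ : Measure E) [IsProbabilityMeasure μ]
    (hJ : J V μ ≤ Jinf V + ENNReal.ofReal η) (hgap : Jinf V ≤ ENNReal.ofReal (L - g))
    (x : E) (hx : θ₀ ≤ μ.real (Metric.ball x R)) (n : ℕ) (hn : 1 ≤ n) :
    1 - μ.real (Metric.ball x ((n + 1) * R)) ≤ (η / 2 + L / n) / (g * θ₀) := by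
  set θ : ℕ → ℝ := fun j => μ.real (Metric.ball x ((j + 1) * R)) with hθ
  have hmono : Monotone θ := by
    intro i j hij
    refine measureReal_mono (Metric.ball_subset_ball ?_)
    have : (i : ℝ) ≤ j := by exact_mod_cast hij
    nlinarith
  have h0 : θ₀ ≤ θ 0 := by
    simp only [hθ]
    simpa using hx
  have h1 : ∀ j, g * θ₀ * (1 - θ n) ≤ η / 2 + L * (θ (j + 1) - θ j) ∨ n ≤ j := by
    intro j
    by_cases hj : n ≤ j
    · right; exact hj
    left
    have h2 := step hV hVs hg hgL hη hR μ hJ hgap (A := Metric.ball x (((j + 1 : ℕ) + 1) * R))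
      (A' := Metric.ball x ((j + 1) * R)) measurableSet_ball measurableSet_ball
      (Metric.ball_subset_ball (by push_cast; nlinarith)) (by
        intro y hy z hyz
        rw [Metric.mem_ball] at hy ⊢
        calc dist z x ≤ dist z y + dist y x := dist_triangle _ _ _
          _ < R + (j + 1) * R := by
            rw [dist_comm z y, dist_eq_norm]
            linarith
          _ = ((j + 1 : ℕ) + 1) * R := by push_cast; ring)
    have h3 : θ 0 ≤ θ (j + 1) := hmono (Nat.zero_le _)
    have h4 : θ (j + 1) ≤ θ n := hmono (by omega)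
    have h5 : θ n ≤ 1 := measureReal_le_one
    have h6 : g * θ₀ * (1 - θ n) ≤ g * θ (j + 1) * (1 - θ (j + 1)) := by
      have h7 : g * θ₀ ≤ g * θ (j + 1) := mul_le_mul_of_nonneg_left (by linarith) hg.le
      have h8 : 0 ≤ g * θ (j + 1) := by
        have : 0 ≤ θ (j + 1) := measureReal_nonneg
        positivity
      calc g * θ₀ * (1 - θ n) ≤ g * θ (j + 1) * (1 - θ n) :=
            mul_le_mul_of_nonneg_right h7 (by linarith)
        _ ≤ g * θ (j + 1) * (1 - θ (j + 1)) := mul_le_mul_of_nonneg_left (by linarith) h8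
    exact h6.trans h2
  have h9 : ∀ m, m ≤ n → m * (g * θ₀ * (1 - θ n)) ≤ m * (η / 2) + L * (θ m - θ 0) := by
    intro m hm
    induction m with
    | zero => simp
    | succ m ih =>
      have h10 := (h1 m).resolve_right (by omega)
      have h11 := ih (by omega)
      push_cast
      linarith
  have h12 := h9 n le_rfl
  have h13 : θ n - θ 0 ≤ 1 := by
    have h5 : θ n ≤ 1 := measureReal_le_one
    have h5' : 0 ≤ θ 0 := measureReal_nonneg
    linarith
  have hn0 : (0 : ℝ) < n := by exact_mod_cast hn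
  have h14 : L * (θ n - θ 0) ≤ L * 1 := mul_le_mul_of_nonneg_left h13 (by linarith)
  have h15 : g * θ₀ * (1 - θ n) ≤ η / 2 + L / n := by
    have h16 : n * (g * θ₀ * (1 - θ n)) ≤ n * (η / 2 + L / n) := by
      have : n * (L / n) = L := by field_simp
      rw [mul_add, this]
      linarith
    exact le_of_mul_le_mul_left h16 hn0
  rw [le_div_iff₀ (by positivity)]
  linarith

end Pool.Agent.MP_bbfed3_an
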