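import Mathlib
import Pool.Agent.Lib.MP_bbfed3_an.Tail

/-!
Compactness up to translation of asymptotically minimising sequences of a pair interaction energy.
-/

set_option linter.unusedSectionVars false

namespace Pool.Agent.MP_bbfed3_an

open Set Filter Topology MeasureTheory ENNReal NNReal BoundedContinuousFunction

variable {E : Type*} [NormedAddCommGroup E] [ProperSpace E] [MeasurableSpace E] [BorelSpace E]

/-- truncation of the potential -/
noncomputable def tr (V : E → ℝ≥0∞) (M : ℕ) (x : E) : ℝ≥0∞ := min (V x) M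

omit [ProperSpace E] in
lemma tr_measurable {V : E → ℝ≥0∞} (hV : Measurable V) (M : ℕ) : Measurable (tr V M) :=
  hV.min measurable_const

omit [ProperSpace E] [MeasurableSpace E] [BorelSpace E] in
lemma tr_symm {V : E → ℝ≥0∞} (hVs : ∀ x, V (-x) = V x) (M : ℕ) (x : E) :
    tr V M (-x) = tr V M x := by
  rw [tr, tr, hVs]

omit [ProperSpace E] [BorelSpace E] in
lemma J_mono {V W : E → ℝ≥0∞} (h : ∀ x, V x ≤ W x) (μ : Measure E) : J V μ ≤ J W μ :=
  lintegral_mono fun _ => h _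

omit [ProperSpace E] [BorelSpace E] in
lemma Jinf_mono {V W : E → ℝ≥0∞} (h : ∀ x, V x ≤ W x) : Jinf V ≤ Jinf W :=
  iInf_mono fun _ => J_mono h _

omit [ProperSpace E] [MeasurableSpace E] [BorelSpace E] in
lemma tr_mono (V : E → ℝ≥0∞) {M N : ℕ} (h : M ≤ N) (x : E) : tr V M x ≤ tr V N x := by
  refine min_le_min le_rfl ?_
  exact_mod_cast h

omit [ProperSpace E] [MeasurableSpace E] [BorelSpace E] in
lemma tr_le (V : E → ℝ≥0∞) (M : ℕ) (x : E) : tr V M x ≤ V x := min_le_left _ _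

lemma J_eq_iSup {V : E → ℝ≥0∞} (hV : Measurable V) (μ : Measure E) :
    J V μ = ⨆ M : ℕ, J (tr V M) μ := by
  have h1 : ∀ x, V x = ⨆ M : ℕ, tr V M x := by
    intro x
    apply le_antisymm
    · by_cases hx : V x = ⊤
      · have : ∀ M : ℕ, tr V M x = M := fun M => by rw [tr, hx]; exact min_eq_right le_top
        simp_rw [this, hx, ENNReal.iSup_natCast]
        exact le_rfl
      · obtain ⟨M, hM⟩ := ENNReal.exists_nat_gt hx
        refine le_iSup_of_le M ?_
        rw [tr, min_eq_left hM.le]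
    · exact iSup_le fun M => tr_le V M x
  rw [J]
  simp_rw [h1]
  rw [lintegral_iSup (fun M => measurable_diff (tr_measurable hV M))
    (fun M N h z => tr_mono V h _)]
  rfl

/-- limit of the infima of the truncated energies -/
noncomputable def JI (V : E → ℝ≥0∞) : ℝ≥0∞ := ⨆ M : ℕ, Jinf (tr V M)

omit [ProperSpace E] [BorelSpace E] in
lemma JI_le (V : E → ℝ≥0∞) : JI V ≤ Jinf V := iSup_le fun M => Jinf_mono (tr_le V M)

/-- narrow continuity of truncated energies -/
lemma tendsto_J_tr {V : E → ℝ≥0∞} (hV : Continuous V) (M : ℕ) {μ : ℕ → ProbabilityMeasure E}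
    {ν : ProbabilityMeasure E} (h : Tendsto μ atTop (𝓝 ν)) :
    Tendsto (fun k => J (tr V M) (μ k : Measure E)) atTop (𝓝 (J (tr V M) (ν : Measure E))) := by
  have hcont : Continuous fun z : E × E => (tr V M (z.1 - z.2)).toNNReal := by
    have h1 : Continuous fun z : E × E => tr V M (z.1 - z.2) :=
      (hV.comp (continuous_fst.sub continuous_snd)).min continuous_const
    refine ENNReal.continuousOn_toNNReal.comp_continuous h1 fun z => ?_
    exact ne_top_of_le_ne_top (ENNReal.natCast_ne_top M) (min_le_right _ _)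
  let f : (E × E) →ᵇ ℝ≥0 := BoundedContinuousFunction.mkOfBound ⟨_, hcont⟩ M (by
    intro x y
    have hb : ∀ z : E × E, (((tr V M (z.1 - z.2)).toNNReal : ℝ≥0) : ℝ) ≤ M := by
      intro z
      have h2 : tr V M (z.1 - z.2) ≤ M := min_le_right _ _
      have h3 := ENNReal.toNNReal_mono (ENNReal.natCast_ne_top M) h2
      rw [ENNReal.toNNReal_natCast] at h3
      exact_mod_cast h3
    rw [NNReal.dist_eq]
    refine abs_sub_le_of_nonneg_of_le (NNReal.coe_nonneg _) (hb x) (NNReal.coe_nonneg _) (hb y))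
  have hprod : Tendsto (fun k => (μ k).prod (μ k)) atTop (𝓝 (ν.prod ν)) :=
    (ProbabilityMeasure.continuous_prod.tendsto (ν, ν)).comp (h.prodMk_nhds h)
  have h4 := (ProbabilityMeasure.tendsto_iff_forall_lintegral_tendsto.1 hprod) f
  have h5 : ∀ z, (f z : ℝ≥0∞) = tr V M (z.1 - z.2) := by
    intro z
    exact ENNReal.coe_toNNReal (ne_top_of_le_ne_top (ENNReal.natCast_ne_top M) (min_le_right _ _))
  simp_rw [h5] at h4
  exact h4

/-- translate of a probability measure: the law of `x - a` -/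
noncomputable def shift (a : E) (μ : ProbabilityMeasure E) : ProbabilityMeasure E :=
  μ.map (f := fun x => x - a) (measurable_id.sub_const a).aemeasurable

lemma shift_toMeasure (a : E) (μ : ProbabilityMeasure E) :
    (shift a μ : Measure E) = (μ : Measure E).map (fun x => x - a) := rfl

lemma J_shift {V : E → ℝ≥0∞} (hV : Measurable V) (a : E) (μ : ProbabilityMeasure E) :
    J V (shift a μ : Measure E) = J V (μ : Measure E) := by
  have hm : Measurable fun x : E => x - a := measurable_id.sub_const a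
  rw [J, shift_toMeasure, Measure.map_prod_map _ _ hm hm, lintegral_map (measurable_diff hV)
    (hm.prodMap hm), J]
  refine lintegral_congr fun z => ?_
  simp

/-- Tightness up to translation. -/
theorem tight_of_almost_min {V : E → ℝ≥0∞} (hV : Measurable V) (hVs : ∀ x, V (-x) = V x)
    {L g R : ℝ} (hg : 0 < g) (hgL : g ≤ L) (hR0 : 0 ≤ R)
    (hR : ∀ x, R ≤ ‖x‖ → ENNReal.ofReal L ≤ V x) (hgap : Jinf V ≤ ENNReal.ofReal (L - g))
    (μ : ℕ → ProbabilityMeasure E)
    (hμ : ∀ M : ℕ, ∀ ε : ℝ, 0 < ε →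
      ∀ᶠ k in atTop, J (tr V M) (μ k : Measure E) ≤ JI V + ENNReal.ofReal ε) :
    ∃ a : ℕ → E, IsTightMeasureSet (range fun k => (shift (a k) (μ k) : Measure E)) := by
  classical
  have hL : 0 < L := by linarith
  set θ₀ := g / (2 * L) with hθ₀
  have hθ₀pos : 0 < θ₀ := by positivity
  have hsel : ∀ k, ∃ x : E, (∃ y : E, θ₀ ≤ (μ k : Measure E).real (Metric.ball y R)) →
      θ₀ ≤ (μ k : Measure E).real (Metric.ball x R) := by
    intro k
    by_cases h : ∃ y : E, θ₀ ≤ (μ k : Measure E).real (Metric.ball y R)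
    · obtain ⟨y, hy⟩ := h
      exact ⟨y, fun _ => hy⟩
    · exact ⟨0, fun h' => (h h').elim⟩
  choose a ha using hsel
  refine ⟨a, ?_⟩
  have hJIfin : JI V ≠ ⊤ :=
    ne_top_of_le_ne_top ENNReal.ofReal_ne_top ((JI_le V).trans hgap)
  -- main estimate
  have main : ∀ δ : ℝ, 0 < δ → ∃ r : ℝ, ∀ᶠ k in atTop,
      (shift (a k) (μ k) : Measure E) {x | r < ‖x‖} ≤ ENNReal.ofReal δ := by
    intro δ hδ
    set η := min (g / 2) (δ * (g * θ₀)) with hη
    have hη0 : 0 < η := lt_min (by positivity) (by positivity)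
    have hη1 : η ≤ g / 2 := min_le_left _ _
    have hη2 : η ≤ δ * (g * θ₀) := min_le_right _ _
    obtain ⟨n, hn⟩ := exists_nat_gt (2 * L / (δ * (g * θ₀)))
    have hn0 : (0 : ℝ) < n := lt_of_le_of_lt (by positivity) hn
    have hn1 : 1 ≤ n := by exact_mod_cast hn0
    have hLn : L / n ≤ δ * (g * θ₀) / 2 := by
      rw [div_le_iff₀ hn0]
      rw [div_lt_iff₀ (by positivity)] at hn
      nlinarith
    -- choose the truncation level
    have hM₀ : ∃ M₀ : ℕ, JI V ≤ Jinf (tr V M₀) + ENNReal.ofReal (η / 2) := by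
      by_contra hcon
      push Not at hcon
      have h1 : JI V + ENNReal.ofReal (η / 2) ≤ JI V := by
        conv_lhs => rw [JI, ENNReal.iSup_add]
        exact iSup_le fun M => (hcon M).le
      have h2 : JI V < JI V + ENNReal.ofReal (η / 2) :=
        ENNReal.lt_add_right hJIfin (by
          rw [Ne, ENNReal.ofReal_eq_zero, not_le]; positivity)
      exact absurd h1 (not_le.2 h2)
    obtain ⟨M₀, hM₀⟩ := hM₀
    obtain ⟨M₁, hM₁⟩ := exists_nat_ge L
    set M := max M₀ M₁ with hM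
    have hMJ : JI V ≤ Jinf (tr V M) + ENNReal.ofReal (η / 2) :=
      hM₀.trans (by gcongr; exact Jinf_mono (tr_mono V (le_max_left _ _)))
    have hRM : ∀ x, R ≤ ‖x‖ → ENNReal.ofReal L ≤ tr V M x := by
      intro x hx
      refine le_min (hR x hx) ?_
      rw [← ENNReal.ofReal_natCast]
      refine ENNReal.ofReal_le_ofReal (hM₁.trans ?_)
      exact_mod_cast le_max_right _ _
    have hgapM : Jinf (tr V M) ≤ ENNReal.ofReal (L - g) := (Jinf_mono (tr_le V M)).trans hgap
    refine ⟨(n + 1) * R, ?_⟩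
    filter_upwards [hμ M (η / 2) (by positivity)] with k hk
    have hkM : J (tr V M) (μ k : Measure E) ≤ Jinf (tr V M) + ENNReal.ofReal η := by
      calc J (tr V M) (μ k : Measure E) ≤ JI V + ENNReal.ofReal (η / 2) := hk
        _ ≤ (Jinf (tr V M) + ENNReal.ofReal (η / 2)) + ENNReal.ofReal (η / 2) := by gcongr
        _ = Jinf (tr V M) + ENNReal.ofReal η := by
          rw [add_assoc, ← ENNReal.ofReal_add (by positivity) (by positivity), add_halves]
    have hex : ∃ y : E, θ₀ ≤ (μ k : Measure E).real (Metric.ball y R) := by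
      obtain ⟨y, hy⟩ := no_vanishing (tr_measurable hV M) hg hgL hη0.le hRM (μ k : Measure E)
        hkM hgapM
      refine ⟨y, le_trans ?_ hy⟩
      rw [hθ₀, div_le_div_iff₀ (by positivity) hL]
      nlinarith
    have hak := ha k hex
    have htail := tail (tr_measurable hV M) (tr_symm hVs M) hg hgL hη0.le hR0 hθ₀pos hRM
      (μ k : Measure E) hkM hgapM (a k) hak n hn1
    have hbound : (η / 2 + L / n) / (g * θ₀) ≤ δ := by
      rw [div_le_iff₀ (by positivity)]
      linarith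
    have hm : Measurable fun x : E => x - a k := measurable_id.sub_const (a k)
    rw [shift_toMeasure, Measure.map_apply hm (measurableSet_lt measurable_const measurable_norm)]
    have hsub : (fun x : E => x - a k) ⁻¹' {x | (n + 1) * R < ‖x‖} ⊆
        (Metric.ball (a k) ((n + 1) * R))ᶜ := by
      intro x hx hx'
      rw [Metric.mem_ball, dist_eq_norm] at hx'
      exact lt_asymm hx hx'
    refine (measure_mono hsub).trans ?_
    rw [prob_compl_eq_one_sub measurableSet_ball, ← ofReal_measureReal, ← ENNReal.ofReal_one,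
      ← ENNReal.ofReal_sub _ measureReal_nonneg]
    exact ENNReal.ofReal_le_ofReal (htail.trans hbound)
  refine isTightMeasureSet_range_of_tendsto_limsup_measure_norm_gt ?_
  rw [ENNReal.tendsto_nhds_zero]
  intro ε hε
  by_cases hεtop : ε = ⊤
  · exact Eventually.of_forall fun _ => by rw [hεtop]; exact le_top
  have hε' : 0 < ε.toReal := ENNReal.toReal_pos hε.ne' hεtop
  obtain ⟨r, hr⟩ := main ε.toReal hε'
  filter_upwards [eventually_ge_atTop r] with r' hr'
  refine limsup_le_of_le (by isBoundedDefault) ?_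
  filter_upwards [hr] with k hk
  calc (shift (a k) (μ k) : Measure E) {x | r' < ‖x‖}
      ≤ (shift (a k) (μ k) : Measure E) {x | r < ‖x‖} :=
        measure_mono fun x hx => lt_of_le_of_lt hr' hx
    _ ≤ ENNReal.ofReal ε.toReal := hk
    _ = ε := ENNReal.ofReal_toReal hεtop

/-- Extraction of a limit. -/
theorem exists_limit_aux {V : E → ℝ≥0∞} (hV : Continuous V) (hVs : ∀ x, V (-x) = V x)
    {L g R : ℝ} (hg : 0 < g) (hgL : g ≤ L) (hR0 : 0 ≤ R)
    (hR : ∀ x, R ≤ ‖x‖ → ENNReal.ofReal L ≤ V x) (hgap : Jinf V ≤ ENNReal.ofReal (L - g))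
    (μ : ℕ → ProbabilityMeasure E)
    (hμ : ∀ M : ℕ, ∀ ε : ℝ, 0 < ε →
      ∀ᶠ k in atTop, J (tr V M) (μ k : Measure E) ≤ JI V + ENNReal.ofReal ε) :
    ∃ a : ℕ → E, ∀ φ : ℕ → ℕ, StrictMono φ → ∃ ψ : ℕ → ℕ, StrictMono ψ ∧
      ∃ ν : ProbabilityMeasure E, J V (ν : Measure E) ≤ JI V ∧
        Tendsto (fun k => shift (a (φ (ψ k))) (μ (φ (ψ k)))) atTop (𝓝 ν) := by
  obtain ⟨a, ha⟩ := tight_of_almost_min hV.measurable hVs hg hgL hR0 hR hgap μ hμ
  refine ⟨a, fun φ hφ => ?_⟩
  set S : Set (ProbabilityMeasure E) := range fun k => shift (a k) (μ k) with hS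
  have hcomp : IsCompact (closure S) := by
    refine isCompact_closure_of_isTightMeasureSet ?_
    refine ha.subset ?_
    rintro _ ⟨ν, ⟨k, rfl⟩, rfl⟩
    exact ⟨k, rfl⟩
  obtain ⟨ν, -, ψ, hψ, hlim⟩ := hcomp.isSeqCompact
    (x := fun k => shift (a (φ k)) (μ (φ k))) (fun k => subset_closure ⟨φ k, rfl⟩)
  refine ⟨ψ, hψ, ν, ?_, hlim⟩
  rw [J_eq_iSup hV.measurable]
  refine iSup_le fun M => ?_
  have h1 := tendsto_J_tr hV M hlim
  refine ENNReal.le_of_forall_pos_le_add fun ε hε _ => ?_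
  refine le_of_tendsto h1 ?_
  have h2 : ∀ᶠ k in atTop, J (tr V M) (μ (φ (ψ k)) : Measure E) ≤ JI V + ENNReal.ofReal ε :=
    (hφ.tendsto_atTop.comp hψ.tendsto_atTop).eventually (hμ M ε (by exact_mod_cast hε))
  filter_upwards [h2] with k hk
  change J (tr V M) (shift (a (φ (ψ k))) (μ (φ (ψ k))) : Measure E) ≤ JI V + ε
  rw [J_shift (tr_measurable hV.measurable M)]
  rwa [ENNReal.ofReal_coe_nnreal] at hk

lemma JI_eq {V : E → ℝ≥0∞} (hV : Continuous V) (hVs : ∀ x, V (-x) = V x)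
    {L g R : ℝ} (hg : 0 < g) (hgL : g ≤ L) (hR0 : 0 ≤ R)
    (hR : ∀ x, R ≤ ‖x‖ → ENNReal.ofReal L ≤ V x) (hgap : Jinf V ≤ ENNReal.ofReal (L - g)) :
    JI V = Jinf V := by
  refine le_antisymm (JI_le V) ?_
  have hJIfin : JI V ≠ ⊤ :=
    ne_top_of_le_ne_top ENNReal.ofReal_ne_top ((JI_le V).trans hgap)
  have hex : ∀ k : ℕ, ∃ μ : ProbabilityMeasure E,
      J (tr V k) (μ : Measure E) < Jinf (tr V k) + ENNReal.ofReal (1 / ((k : ℝ) + 1)) := by
    intro k
    have h1 : Jinf (tr V k) ≠ ⊤ :=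
      ne_top_of_le_ne_top hJIfin (le_iSup (fun M : ℕ => Jinf (tr V M)) k)
    have h2 : Jinf (tr V k) < Jinf (tr V k) + ENNReal.ofReal (1 / ((k : ℝ) + 1)) :=
      ENNReal.lt_add_right h1 (by
        rw [Ne, ENNReal.ofReal_eq_zero, not_le]; positivity)
    exact iInf_lt_iff.1 h2
  choose μ hμ using hex
  obtain ⟨a, ha⟩ := exists_limit_aux hV hVs hg hgL hR0 hR hgap μ (by
    intro M ε hε
    obtain ⟨K, hK⟩ := exists_nat_one_div_lt hε
    filter_upwards [eventually_ge_atTop (max M K)] with k hk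
    calc J (tr V M) (μ k : Measure E) ≤ J (tr V k) (μ k : Measure E) :=
          J_mono (tr_mono V ((le_max_left _ _).trans hk)) _
      _ ≤ Jinf (tr V k) + ENNReal.ofReal (1 / ((k : ℝ) + 1)) := (hμ k).le
      _ ≤ JI V + ENNReal.ofReal ε := by
        refine add_le_add (le_iSup (fun M : ℕ => Jinf (tr V M)) k) ?_
        refine ENNReal.ofReal_le_ofReal (le_trans ?_ hK.le)
        have : (K : ℝ) ≤ k := by exact_mod_cast (le_max_right _ _).trans hk
        exact one_div_le_one_div_of_le (by positivity) (by linarith))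
  obtain ⟨ψ, -, ν, hν, -⟩ := ha id strictMono_id
  exact (iInf_le (fun μ : ProbabilityMeasure E => J V (μ : Measure E)) ν).trans hν

/-- Main abstract theorem. -/
theorem exists_limit {V : E → ℝ≥0∞} (hV : Continuous V) (hVs : ∀ x, V (-x) = V x)
    {L g R : ℝ} (hg : 0 < g) (hgL : g ≤ L) (hR0 : 0 ≤ R)
    (hR : ∀ x, R ≤ ‖x‖ → ENNReal.ofReal L ≤ V x) (hgap : Jinf V ≤ ENNReal.ofReal (L - g))
    (μ : ℕ → ProbabilityMeasure E)
    (hμ : ∀ M : ℕ, ∀ ε : ℝ, 0 < ε →
      ∀ᶠ k in atTop, J (tr V M) (μ k : Measure E) ≤ Jinf V + ENNReal.ofReal ε) :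
    ∃ a : ℕ → E, ∀ φ : ℕ → ℕ, StrictMono φ → ∃ ψ : ℕ → ℕ, StrictMono ψ ∧
      ∃ ν : ProbabilityMeasure E,
        (∀ ν' : ProbabilityMeasure E, J V (ν : Measure E) ≤ J V (ν' : Measure E)) ∧
        Tendsto (fun k => shift (a (φ (ψ k))) (μ (φ (ψ k)))) atTop (𝓝 ν) := by
  have hJI := JI_eq hV hVs hg hgL hR0 hR hgap
  obtain ⟨a, ha⟩ := exists_limit_aux hV hVs hg hgL hR0 hR hgap μ (by rw [hJI]; exact hμ)
  refine ⟨a, fun φ hφ => ?_⟩
  obtain ⟨ψ, hψ, ν, hν, hlim⟩ := ha φ hφ
  refine ⟨ψ, hψ, ν, fun ν' => ?_, hlim⟩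
  rw [hJI] at hν
  exact hν.trans (iInf_le (fun μ : ProbabilityMeasure E => J V (μ : Measure E)) ν')

end Pool.Agent.MP_bbfed3_an
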