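import Mathlib
import Pool.Agent.Lib.MP_bbfed3_an.Compact

/-!
Discrete minimisers: empirical measures are asymptotically minimising.
-/

set_option linter.unusedSectionVars false

namespace Pool.Agent.MP_bbfed3_an

open Set Filter Topology MeasureTheory ENNReal NNReal BoundedContinuousFunction ProbabilityTheory

variable {E : Type*} [NormedAddCommGroup E] [ProperSpace E] [MeasurableSpace E] [BorelSpace E]

/-- discrete energy (without the factor one half) -/
noncomputable def JN (V : E → ℝ≥0∞) {N : ℕ} (X : Fin N → E) : ℝ≥0∞ :=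
  ∑ i, ∑ j, if i = j then 0 else V (X i - X j)

/-- the empirical measure of a configuration -/
noncomputable def emp {N : ℕ} (X : Fin N → E) : Measure E :=
  (N : ℝ≥0∞)⁻¹ • ∑ i, Measure.dirac (X i)

lemma emp_prob {N : ℕ} (hN : 1 ≤ N) (X : Fin N → E) : IsProbabilityMeasure (emp X) := ⟨by
  rw [emp, Measure.smul_apply, Measure.finsetSum_apply]
  simp only [measure_univ, Finset.sum_const, Finset.card_univ, Fintype.card_fin, smul_eq_mul,
    nsmul_eq_mul, mul_one]
  exact ENNReal.inv_mul_cancel (by positivity) (ENNReal.natCast_ne_top N)⟩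

lemma lintegral_emp {N : ℕ} (X : Fin N → E) (f : E → ℝ≥0∞) :
    ∫⁻ x, f x ∂(emp X) = (N : ℝ≥0∞)⁻¹ * ∑ i, f (X i) := by
  rw [emp, lintegral_smul_measure, lintegral_finsetSum_measure]
  simp only [lintegral_dirac, smul_eq_mul]

lemma J_emp {V : E → ℝ≥0∞} (hV : Measurable V) {N : ℕ} (hN : 1 ≤ N) (X : Fin N → E) :
    J V (emp X) = (N : ℝ≥0∞)⁻¹ * ((N : ℝ≥0∞)⁻¹ * ∑ i, ∑ j, V (X i - X j)) := by
  have := emp_prob hN X
  rw [J, lintegral_prod _ (measurable_diff hV).aemeasurable]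
  simp_rw [lintegral_emp]
  rw [← Finset.mul_sum]

lemma J_tr_emp_le {V : E → ℝ≥0∞} (hV : Measurable V) {N : ℕ} (hN : 1 ≤ N) (X : Fin N → E)
    (M : ℕ) : J (tr V M) (emp X) ≤ (N : ℝ≥0∞)⁻¹ * ((N : ℝ≥0∞)⁻¹ * (JN V X + N * M)) := by
  rw [J_emp (tr_measurable hV M) hN]
  gcongr
  calc ∑ i, ∑ j, tr V M (X i - X j)
      ≤ ∑ i, ∑ j, ((if i = j then 0 else V (X i - X j)) + if i = j then (M : ℝ≥0∞) else 0) := by
        gcongr with i _ j _
        by_cases h : i = j
        · simp only [h, if_true, zero_add]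
          exact min_le_right _ _
        · simp only [h, if_false, add_zero]
          exact min_le_left _ _
    _ = JN V X + N * M := by
        simp_rw [Finset.sum_add_distrib]
        rw [JN]
        congr 1
        simp

lemma lintegral_pi_pair {V : E → ℝ≥0∞} (hV : Measurable V) {N : ℕ} (ρ : Measure E)
    [IsProbabilityMeasure ρ] {i j : Fin N} (hij : i ≠ j) :
    ∫⁻ Y, V (Y i - Y j) ∂(Measure.pi fun _ : Fin N => ρ) = J V ρ := by
  classical
  have hind : iIndepFun (fun (i : Fin N) (Y : Fin N → E) => Y i) (Measure.pi fun _ => ρ) :=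
    iIndepFun_pi (X := fun (_ : Fin N) (x : E) => x) (fun _ => aemeasurable_id)
  have h1 := (indepFun_iff_map_prod_eq_prod_map_map (measurable_pi_apply i).aemeasurable
    (measurable_pi_apply j).aemeasurable).1 (hind.indepFun hij)
  have h2 : ∀ l : Fin N, (Measure.pi fun _ : Fin N => ρ).map (fun Y => Y l) = ρ := by
    intro l
    have := Measure.pi_map_eval (μ := fun _ : Fin N => ρ) l
    simpa [Function.eval] using this
  rw [h2 i, h2 j] at h1
  rw [J, ← h1, lintegral_map (measurable_diff hV)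
    ((measurable_pi_apply i).prodMk (measurable_pi_apply j))]

lemma JN_le_of_min {V : E → ℝ≥0∞} (hV : Measurable V) {N : ℕ} (X : Fin N → E)
    (hX : ∀ Y : Fin N → E, JN V X ≤ JN V Y) (ρ : Measure E) [IsProbabilityMeasure ρ] :
    JN V X ≤ N * (N * J V ρ) := by
  classical
  have h1 : JN V X ≤ ∫⁻ Y, JN V Y ∂(Measure.pi fun _ : Fin N => ρ) := by
    calc JN V X = ∫⁻ _, JN V X ∂(Measure.pi fun _ : Fin N => ρ) := by
          rw [lintegral_const, measure_univ, mul_one]
      _ ≤ _ := lintegral_mono hX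
  refine h1.trans ?_
  have hm : ∀ i j : Fin N, Measurable fun Y : Fin N → E => if i = j then 0 else V (Y i - Y j) := by
    intro i j
    by_cases h : i = j
    · simp only [h, if_true]; exact measurable_const
    · simp only [h, if_false]
      exact hV.comp ((measurable_pi_apply i).sub (measurable_pi_apply j))
  calc ∫⁻ Y, JN V Y ∂(Measure.pi fun _ : Fin N => ρ)
      = ∑ i, ∑ j, ∫⁻ Y, (if i = j then 0 else V (Y i - Y j)) ∂(Measure.pi fun _ : Fin N => ρ) := by
        simp only [JN]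
        rw [lintegral_finsetSum _ fun i _ => Finset.measurable_sum _ fun j _ => hm i j]
        refine Finset.sum_congr rfl fun i _ => ?_
        rw [lintegral_finsetSum _ fun j _ => hm i j]
    _ ≤ ∑ _i : Fin N, ∑ _j : Fin N, J V ρ := by
        refine Finset.sum_le_sum fun i _ => Finset.sum_le_sum fun j _ => ?_
        by_cases h : i = j
        · simp [h]
        · simp only [h, if_false]
          exact (lintegral_pi_pair hV ρ h).le
    _ = N * (N * J V ρ) := by simp

lemma J_tr_emp_le_min {V : E → ℝ≥0∞} (hV : Measurable V) {N : ℕ} (hN : 1 ≤ N) (X : Fin N → E)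
    (hX : ∀ Y : Fin N → E, JN V X ≤ JN V Y) (M : ℕ) :
    J (tr V M) (emp X) ≤ Jinf V + M / N := by
  have hN0 : (N : ℝ≥0∞) ≠ 0 := by positivity
  have hNt : (N : ℝ≥0∞) ≠ ⊤ := ENNReal.natCast_ne_top N
  have key : ∀ ρ : ProbabilityMeasure E, J (tr V M) (emp X) ≤ J V (ρ : Measure E) + M / N := by
    intro ρ
    calc J (tr V M) (emp X) ≤ (N : ℝ≥0∞)⁻¹ * ((N : ℝ≥0∞)⁻¹ * (JN V X + N * M)) :=
          J_tr_emp_le hV hN X M
      _ ≤ (N : ℝ≥0∞)⁻¹ * ((N : ℝ≥0∞)⁻¹ * (N * (N * J V (ρ : Measure E)) + N * M)) := by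
          gcongr
          exact JN_le_of_min hV X hX _
      _ = ((N : ℝ≥0∞)⁻¹ * N) * (((N : ℝ≥0∞)⁻¹ * N) * J V (ρ : Measure E) + M * (N : ℝ≥0∞)⁻¹) := by
          ring
      _ = J V (ρ : Measure E) + M / N := by
          rw [ENNReal.inv_mul_cancel hN0 hNt, one_mul, one_mul, div_eq_mul_inv]
  rw [Jinf, ENNReal.iInf_add]
  exact le_iInf key

lemma shift_emp {N : ℕ} (hN : 1 ≤ N) (X : Fin N → E) (a : E) :
    (shift a ⟨emp X, emp_prob hN X⟩ : Measure E) = emp (fun i => X i - a) := by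
  have hm : Measurable fun x : E => x - a := measurable_id.sub_const a
  rw [shift_toMeasure]
  refine Measure.ext fun s hs => ?_
  rw [Measure.map_apply hm hs]
  change emp X _ = _
  rw [emp, emp, Measure.smul_apply, Measure.smul_apply, Measure.finsetSum_apply,
    Measure.finsetSum_apply]
  congr 1
  refine Finset.sum_congr rfl fun i _ => ?_
  rw [Measure.dirac_apply' _ (hm hs), Measure.dirac_apply' _ hs]
  rfl

/-- Convergence of discrete minimisers, for a general potential. -/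
theorem discrete_main {V : E → ℝ≥0∞} (hV : Continuous V) (hVs : ∀ x, V (-x) = V x)
    {L g R : ℝ} (hg : 0 < g) (hgL : g ≤ L) (hR0 : 0 ≤ R)
    (hR : ∀ x, R ≤ ‖x‖ → ENNReal.ofReal L ≤ V x) (hgap : Jinf V ≤ ENNReal.ofReal (L - g))
    (n : ℕ → ℕ) (hn : Tendsto n atTop atTop) (hn1 : ∀ k, 1 ≤ n k) (X : ∀ k, Fin (n k) → E)
    (hX : ∀ k, ∀ Y : Fin (n k) → E, JN V (X k) ≤ JN V Y) :
    ∃ a : ℕ → E, ∀ φ : ℕ → ℕ, StrictMono φ → ∃ ψ : ℕ → ℕ, StrictMono ψ ∧
      ∃ ν : ProbabilityMeasure E,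
        (∀ ν' : ProbabilityMeasure E, J V (ν : Measure E) ≤ J V (ν' : Measure E)) ∧
        ∀ f : E →ᵇ ℝ, Tendsto (fun k => ∫ x, f x ∂(emp (fun i => X (φ (ψ k)) i - a (φ (ψ k)))))
          atTop (𝓝 (∫ x, f x ∂(ν : Measure E))) := by
  obtain ⟨a, ha⟩ := exists_limit hV hVs hg hgL hR0 hR hgap
    (fun k => ⟨emp (X k), emp_prob (hn1 k) (X k)⟩) (by
      intro M ε hε
      obtain ⟨K, hK⟩ := exists_nat_gt ((M : ℝ) / ε)
      filter_upwards [hn.eventually_ge_atTop (max K 1)] with k hk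
      refine (J_tr_emp_le_min hV.measurable (hn1 k) (X k) (hX k) M).trans ?_
      gcongr
      have h0 : (0 : ℝ) < n k := by
        have := (le_max_right K 1).trans hk
        exact_mod_cast this
      have h1 : (M : ℝ≥0∞) / (n k : ℝ≥0∞) = ENNReal.ofReal ((M : ℝ) / (n k : ℝ)) := by
        rw [ENNReal.ofReal_div_of_pos h0, ENNReal.ofReal_natCast, ENNReal.ofReal_natCast]
      rw [h1]
      refine ENNReal.ofReal_le_ofReal ?_
      rw [div_le_iff₀ h0]
      rw [div_lt_iff₀ hε] at hK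
      have h2 : (K : ℝ) ≤ n k := by exact_mod_cast (le_max_left K 1).trans hk
      nlinarith)
  refine ⟨a, fun φ hφ => ?_⟩
  obtain ⟨ψ, hψ, ν, hν, hlim⟩ := ha φ hφ
  refine ⟨ψ, hψ, ν, hν, fun f => ?_⟩
  have h1 := ProbabilityMeasure.tendsto_iff_forall_integral_tendsto.1 hlim f
  refine h1.congr fun k => ?_
  change ∫ x, f x ∂(shift (a (φ (ψ k))) ⟨emp (X (φ (ψ k))), emp_prob (hn1 _) (X _)⟩ : Measure E) = _
  rw [shift_emp (hn1 _)]

end Pool.Agent.MP_bbfed3_an
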