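import Mathlib

/-!
The radial profile `-r^α/α + r^β/β`.
-/

namespace Pool.Agent.MP_bbfed3_an

open Set Filter Topology

/-- `r ^ γ / γ`, read as `log r` when `γ = 0`. -/
noncomputable def powLog (γ r : ℝ) : ℝ := if γ = 0 then Real.log r else r ^ γ / γ

/-- the radial profile -/
noncomputable def prof (α β r : ℝ) : ℝ := -powLog α r + powLog β r

lemma powLog_hasDerivAt (γ : ℝ) {r : ℝ} (hr : 0 < r) :
    HasDerivAt (powLog γ) (r ^ (γ - 1)) r := by
  by_cases h : γ = 0
  · subst h
    have h1 : powLog 0 = Real.log := by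
      funext x; simp [powLog]
    rw [h1, zero_sub, Real.rpow_neg_one]
    exact Real.hasDerivAt_log hr.ne'
  · have h1 : powLog γ = fun x => x ^ γ / γ := by
      funext x; simp [powLog, h]
    rw [h1]
    have h2 := (Real.hasDerivAt_rpow_const (x := r) (p := γ) (Or.inl hr.ne')).div_const γ
    refine h2.congr_deriv ?_
    field_simp

lemma prof_hasDerivAt (α β : ℝ) {r : ℝ} (hr : 0 < r) :
    HasDerivAt (prof α β) (-r ^ (α - 1) + r ^ (β - 1)) r :=
  (powLog_hasDerivAt α hr).neg.add (powLog_hasDerivAt β hr)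

lemma powLog_continuousOn (γ : ℝ) : ContinuousOn (powLog γ) (Ioi 0) :=
  fun _ hr => (powLog_hasDerivAt γ hr).continuousAt.continuousWithinAt

lemma prof_continuousOn (α β : ℝ) : ContinuousOn (prof α β) (Ioi 0) :=
  fun _ hr => (prof_hasDerivAt α β hr).continuousAt.continuousWithinAt

lemma powLog_mono (γ : ℝ) {r s : ℝ} (hr : 0 < r) (hrs : r ≤ s) : powLog γ r ≤ powLog γ s := by
  have h : MonotoneOn (powLog γ) (Ioi 0) := by
    refine monotoneOn_of_deriv_nonneg (convex_Ioi 0) (powLog_continuousOn γ) ?_ ?_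
    · rw [interior_Ioi]
      exact fun x hx => (powLog_hasDerivAt γ hx).differentiableAt.differentiableWithinAt
    · rw [interior_Ioi]
      intro x hx
      rw [(powLog_hasDerivAt γ hx).deriv]
      exact Real.rpow_nonneg (le_of_lt hx) _
  exact h hr (lt_of_lt_of_le hr hrs) hrs

lemma prof_ge {α β : ℝ} (h : α < β) {r : ℝ} (hr : 0 < r) : prof α β 1 ≤ prof α β r := by
  rcases le_total 1 r with h1 | h1
  · have hm : MonotoneOn (prof α β) (Ici 1) := by
      refine monotoneOn_of_deriv_nonneg (convex_Ici 1)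
        ((prof_continuousOn α β).mono fun x (hx : 1 ≤ x) => lt_of_lt_of_le one_pos hx) ?_ ?_
      · rw [interior_Ici]
        exact fun x (hx : 1 < x) => (prof_hasDerivAt α β
          (one_pos.trans hx)).differentiableAt.differentiableWithinAt
      · rw [interior_Ici]
        intro x (hx : 1 < x)
        rw [(prof_hasDerivAt α β (one_pos.trans hx)).deriv]
        have := Real.rpow_le_rpow_of_exponent_le hx.le (by linarith : α - 1 ≤ β - 1)
        linarith
    exact hm (mem_Ici.2 le_rfl) h1 h1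
  · have hm : AntitoneOn (prof α β) (Ioc 0 1) := by
      refine antitoneOn_of_deriv_nonpos (convex_Ioc 0 1)
        ((prof_continuousOn α β).mono fun x hx => hx.1) ?_ ?_
      · rw [interior_Ioc]
        exact fun x hx => (prof_hasDerivAt α β hx.1).differentiableAt.differentiableWithinAt
      · rw [interior_Ioc]
        intro x hx
        rw [(prof_hasDerivAt α β hx.1).deriv]
        have := Real.rpow_le_rpow_of_exponent_ge hx.1 hx.2.le (by linarith : α - 1 ≤ β - 1)
        linarith
    exact hm ⟨hr, h1⟩ ⟨one_pos, le_rfl⟩ h1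

lemma powLog_tendsto_atBot {α : ℝ} (hα : α ≤ 0) : Tendsto (powLog α) (𝓝[>] 0) atBot := by
  rcases hα.lt_or_eq with h | h
  · have h1 : powLog α = fun x => x ^ α / α := by
      funext x; simp [powLog, h.ne]
    rw [h1]
    have h2 : Tendsto (fun x : ℝ => x ^ α) (𝓝[>] 0) atTop := by
      exact tendsto_rpow_neg_nhdsGT_zero h
    exact h2.atTop_div_const_of_neg h
  · subst h
    have h1 : powLog 0 = Real.log := by
      funext x; simp [powLog]
    rw [h1]
    exact Real.tendsto_log_nhdsGT_zero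

lemma powLog_tendsto_atTop {β : ℝ} (hβ : 0 ≤ β) : Tendsto (powLog β) atTop atTop := by
  rcases hβ.lt_or_eq with h | h
  · have h1 : powLog β = fun x => x ^ β / β := by
      funext x; simp [powLog, h.ne']
    rw [h1]
    exact (tendsto_rpow_atTop h).atTop_div_const h
  · subst h
    have h1 : powLog 0 = Real.log := by
      funext x; simp [powLog]
    rw [h1]
    exact Real.tendsto_log_atTop

lemma prof_tendsto_zero_top {α β : ℝ} (h : α < β) (hα : α ≤ 0) :
    Tendsto (prof α β) (𝓝[>] 0) atTop := by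
  set q : ℝ := (1 / 2 : ℝ) ^ (β - α) with hq
  have hq0 : 0 < q := Real.rpow_pos_of_pos (by norm_num) _
  have hq1 : q < 1 := Real.rpow_lt_one (by norm_num) (by norm_num) (by linarith)
  have hd : ∀ x : ℝ, 0 < x → HasDerivAt (fun r => prof α β r + (1 - q) * powLog α r)
      (-x ^ (α - 1) + x ^ (β - 1) + (1 - q) * x ^ (α - 1)) x := fun x hx =>
    (prof_hasDerivAt α β hx).add ((powLog_hasDerivAt α hx).const_mul _)
  have hm : AntitoneOn (fun r => prof α β r + (1 - q) * powLog α r) (Ioc 0 (1 / 2)) := by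
    refine antitoneOn_of_deriv_nonpos (convex_Ioc 0 _)
      (fun x hx => (hd x hx.1).continuousAt.continuousWithinAt) ?_ ?_
    · rw [interior_Ioc]
      exact fun x hx => (hd x hx.1).differentiableAt.differentiableWithinAt
    · rw [interior_Ioc]
      intro x hx
      rw [(hd x hx.1).deriv]
      have h1 : x ^ (β - 1) = x ^ (α - 1) * x ^ (β - α) := by
        rw [← Real.rpow_add hx.1]; congr 1; ring
      have h2 : x ^ (β - α) ≤ q := Real.rpow_le_rpow hx.1.le hx.2.le (by linarith)
      have h3 : 0 ≤ x ^ (α - 1) := Real.rpow_nonneg hx.1.le _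
      rw [h1]
      nlinarith
  have h4 : Tendsto (fun r => (prof α β (1 / 2) + (1 - q) * powLog α (1 / 2)) +
      -((1 - q) * powLog α r)) (𝓝[>] 0) atTop := by
    refine tendsto_atTop_add_const_left _ _ ?_
    refine tendsto_neg_atBot_atTop.comp ?_
    exact (powLog_tendsto_atBot hα).const_mul_atBot (by linarith)
  refine tendsto_atTop_mono' _ ?_ h4
  have h5 : Ioc (0 : ℝ) (1 / 2) ∈ 𝓝[>] (0 : ℝ) := Ioc_mem_nhdsGT (by norm_num)
  filter_upwards [h5] with r hr
  have h6 := hm hr ⟨by norm_num, le_rfl⟩ hr.2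
  simp only at h6
  linarith

lemma prof_tendsto_atTop {α β : ℝ} (h : α < β) (hβ : 0 ≤ β) :
    Tendsto (prof α β) atTop atTop := by
  set q : ℝ := (2 : ℝ) ^ (-(β - α)) with hq
  have hq0 : 0 < q := Real.rpow_pos_of_pos (by norm_num) _
  have hq1 : q < 1 := Real.rpow_lt_one_of_one_lt_of_neg (by norm_num) (by linarith)
  have hd : ∀ x : ℝ, 0 < x → HasDerivAt (fun r => prof α β r - (1 - q) * powLog β r)
      (-x ^ (α - 1) + x ^ (β - 1) - (1 - q) * x ^ (β - 1)) x := fun x hx =>
    (prof_hasDerivAt α β hx).sub ((powLog_hasDerivAt β hx).const_mul _)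
  have hm : MonotoneOn (fun r => prof α β r - (1 - q) * powLog β r) (Ici 2) := by
    refine monotoneOn_of_deriv_nonneg (convex_Ici 2)
      (fun x (hx : 2 ≤ x) => (hd x (by linarith)).continuousAt.continuousWithinAt) ?_ ?_
    · rw [interior_Ici]
      exact fun x (hx : 2 < x) => (hd x (by linarith)).differentiableAt.differentiableWithinAt
    · rw [interior_Ici]
      intro x (hx : 2 < x)
      have hx0 : 0 < x := by linarith
      rw [(hd x hx0).deriv]
      have h1 : x ^ (α - 1) = x ^ (β - 1) * x ^ (-(β - α)) := by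
        rw [← Real.rpow_add hx0]; congr 1; ring
      have h2 : x ^ (-(β - α)) ≤ q :=
        Real.rpow_le_rpow_of_nonpos (by norm_num) hx.le (by linarith)
      have h3 : 0 ≤ x ^ (β - 1) := Real.rpow_nonneg hx0.le _
      rw [h1]
      nlinarith
  have h4 : Tendsto (fun r => (prof α β 2 - (1 - q) * powLog β 2) +
      (1 - q) * powLog β r) atTop atTop := by
    refine tendsto_atTop_add_const_left _ _ ?_
    exact (powLog_tendsto_atTop hβ).const_mul_atTop (by linarith)
  refine tendsto_atTop_mono' _ ?_ h4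
  filter_upwards [eventually_ge_atTop 2] with r hr
  have h6 := hm (mem_Ici.2 le_rfl) (mem_Ici.2 hr) hr
  simp only at h6
  linarith

lemma prof_tendsto_zero_zero {α β : ℝ} (h : α < β) (hα : 0 < α) :
    Tendsto (prof α β) (𝓝[>] 0) (𝓝 0) := by
  have h1 : prof α β = fun r => -(r ^ α / α) + r ^ β / β := by
    funext r
    simp [prof, powLog, hα.ne', (hα.trans h).ne']
  rw [h1]
  have h2 : ∀ γ : ℝ, 0 < γ → Tendsto (fun r : ℝ => r ^ γ / γ) (𝓝[>] 0) (𝓝 0) := by
    intro γ hγ
    have h3 : Tendsto (fun r : ℝ => r ^ γ) (𝓝 0) (𝓝 ((0 : ℝ) ^ γ)) :=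
      (Real.continuousAt_rpow_const 0 γ (Or.inr hγ.le)).tendsto
    rw [Real.zero_rpow hγ.ne'] at h3
    have h4 : Tendsto (fun r : ℝ => r ^ γ) (𝓝[>] 0) (𝓝 0) := h3.mono_left nhdsWithin_le_nhds
    have := h4.div_const γ
    simpa using this
  have := (h2 α hα).neg.add (h2 β (hα.trans h))
  simpa using this

lemma prof_tendsto_inf_zero {α β : ℝ} (h : α < β) (hβ : β < 0) :
    Tendsto (prof α β) atTop (𝓝 0) := by
  have h1 : prof α β = fun r => -(r ^ α / α) + r ^ β / β := by
    funext r
    simp [prof, powLog, hβ.ne, (h.trans hβ).ne]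
  rw [h1]
  have h2 : ∀ γ : ℝ, γ < 0 → Tendsto (fun r : ℝ => r ^ γ / γ) atTop (𝓝 0) := by
    intro γ hγ
    have h3 := tendsto_rpow_neg_atTop (y := -γ) (by linarith)
    simp only [neg_neg] at h3
    simpa using h3.div_const γ
  have := (h2 α (h.trans hβ)).neg.add (h2 β hβ)
  simpa using this

end Pool.Agent.MP_bbfed3_an
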