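import Mathlib
import Pool.Agent.Lib.MP_bbfed3_an.Radial
import Pool.Agent.Lib.MP_bbfed3_an.Discrete

/-!
The shifted potential, its continuity, and a probability measure of small energy.
-/

set_option linter.unusedSectionVars false

namespace Pool.Agent.MP_bbfed3_an

open Set Filter Topology MeasureTheory ENNReal NNReal

/-- the additive constant making the potential nonnegative -/
noncomputable def C₀ (α β : ℝ) : ℝ := |prof α β 1|

lemma prof_add_nonneg {α β : ℝ} (h : α < β) {r : ℝ} (hr : 0 < r) : 0 ≤ prof α β r + C₀ α β := by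
  have h1 := prof_ge h hr
  have h2 := neg_abs_le (prof α β 1)
  rw [C₀]
  linarith

/-- shifted radial potential with values in `[0, ∞]` -/
noncomputable def vr (α β r : ℝ) : ℝ≥0∞ :=
  if r = 0 then (if α ≤ 0 then ⊤ else ENNReal.ofReal (C₀ α β))
  else ENNReal.ofReal (prof α β r + C₀ α β)

lemma vr_continuousOn {α β : ℝ} (h : α < β) : ContinuousOn (vr α β) (Ici 0) := by
  intro r hr
  have hr' : (0 : ℝ) ≤ r := hr
  rcases hr'.lt_or_eq with h0 | h0
  · -- positive point
    have h1 : ContinuousAt (fun s => ENNReal.ofReal (prof α β s + C₀ α β)) r :=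
      ENNReal.continuous_ofReal.continuousAt.comp
        ((prof_hasDerivAt α β h0).continuousAt.add continuousAt_const)
    have h2 : vr α β =ᶠ[𝓝 r] fun s => ENNReal.ofReal (prof α β s + C₀ α β) := by
      filter_upwards [lt_mem_nhds h0] with s hs
      rw [vr, if_neg (ne_of_gt hs)]
    exact (h1.congr h2.symm).continuousWithinAt
  · subst h0
    have h3 : Tendsto (vr α β) (𝓝[>] 0) (𝓝 (vr α β 0)) := by
      have h4 : vr α β =ᶠ[𝓝[>] 0] fun s => ENNReal.ofReal (prof α β s + C₀ α β) := by
        filter_upwards [self_mem_nhdsWithin] with s hs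
        rw [vr, if_neg (ne_of_gt hs)]
      refine Tendsto.congr' h4.symm ?_
      by_cases hα : α ≤ 0
      · have h5 : vr α β 0 = ⊤ := by simp [vr, hα]
        rw [h5]
        exact ENNReal.tendsto_ofReal_atTop.comp
          (tendsto_atTop_add_const_right _ _ (prof_tendsto_zero_top h hα))
      · have h5 : vr α β 0 = ENNReal.ofReal (0 + C₀ α β) := by simp [vr, hα]
        rw [h5]
        exact (ENNReal.continuous_ofReal.tendsto _).comp
          ((prof_tendsto_zero_zero h (not_le.1 hα)).add_const _)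
    have h6 : Ici (0 : ℝ) = insert 0 (Ioi 0) := by
      ext x
      simp only [mem_Ici, mem_insert_iff, mem_Ioi]
      constructor
      · intro hx
        rcases hx.lt_or_eq with hx | hx
        · right; exact hx
        · left; exact hx.symm
      · rintro (hx | hx)
        · exact hx.ge
        · exact hx.le
    rw [h6, continuousWithinAt_insert_self]
    exact h3

variable {E : Type*} [NormedAddCommGroup E] [ProperSpace E] [MeasurableSpace E] [BorelSpace E]

/-- the shifted potential on the space -/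
noncomputable def VV (α β : ℝ) (x : E) : ℝ≥0∞ := vr α β ‖x‖

lemma VV_continuous {α β : ℝ} (h : α < β) : Continuous (VV α β : E → ℝ≥0∞) :=
  (vr_continuousOn h).comp_continuous continuous_norm fun x => norm_nonneg x

lemma VV_symm (α β : ℝ) (x : E) : VV α β (-x) = VV α β x := by
  rw [VV, VV, norm_neg]

section unif

variable {E : Type*} [NormedAddCommGroup E] [NormedSpace ℝ E] [FiniteDimensional ℝ E]
  [MeasurableSpace E] [BorelSpace E] (vol : Measure E) [vol.IsAddHaarMeasure]

/-- uniform probability measure on the unit ball -/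
noncomputable def unif : Measure E :=
  (vol (Metric.ball 0 1))⁻¹ • vol.restrict (Metric.ball 0 1)

lemma unif_prob : IsProbabilityMeasure (unif vol) := ⟨by
  rw [unif, Measure.smul_apply, Measure.restrict_apply_univ, smul_eq_mul]
  exact ENNReal.inv_mul_cancel (Metric.measure_ball_pos vol 0 one_pos).ne'
    measure_ball_lt_top.ne⟩

lemma J_unif_le {U : E → ℝ≥0∞} (hU : Measurable U) :
    J U (unif vol) ≤ (vol (Metric.ball 0 1))⁻¹ * ∫⁻ z in Metric.ball 0 2, U z ∂vol := by
  have := FiniteDimensional.proper ℝ E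
  have := unif_prob vol
  rw [J, lintegral_prod _ (measurable_diff hU).aemeasurable]
  have h1 : ∀ x ∈ Metric.ball (0 : E) 1, ∫⁻ y, U (x - y) ∂(unif vol) ≤
      (vol (Metric.ball 0 1))⁻¹ * ∫⁻ z in Metric.ball 0 2, U z ∂vol := by
    intro x hx
    rw [unif, lintegral_smul_measure, smul_eq_mul]
    refine mul_le_mul' le_rfl ?_
    rw [← lintegral_indicator measurableSet_ball, ← lintegral_indicator measurableSet_ball,
      ← lintegral_sub_left_eq_self ((Metric.ball (0 : E) 2).indicator U) x]
    refine lintegral_mono fun y => ?_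
    by_cases hy : y ∈ Metric.ball (0 : E) 1
    · rw [indicator_of_mem hy, indicator_of_mem]
      rw [mem_ball_zero_iff] at *
      calc ‖x - y‖ ≤ ‖x‖ + ‖y‖ := norm_sub_le _ _
        _ < 2 := by linarith
    · rw [indicator_of_notMem hy]
      exact zero_le
  have h2 : ∀ᵐ x ∂(unif vol), x ∈ Metric.ball (0 : E) 1 := by
    rw [unif]
    exact Measure.ae_smul_measure (ae_restrict_mem measurableSet_ball) _
  calc ∫⁻ x, ∫⁻ y, U (x - y) ∂(unif vol) ∂(unif vol)
      ≤ ∫⁻ _, ((vol (Metric.ball 0 1))⁻¹ * ∫⁻ z in Metric.ball 0 2, U z ∂vol) ∂(unif vol) := by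
        refine lintegral_mono_ae ?_
        filter_upwards [h2] with x hx using h1 x hx
    _ = _ := by rw [lintegral_const, measure_univ, mul_one]

lemma J_unif_rpow_lt_top (hd : 1 ≤ Module.finrank ℝ E) {s : ℝ}
    (hs : -(Module.finrank ℝ E : ℝ) < s) :
    J (fun x : E => ENNReal.ofReal (‖x‖ ^ s)) (unif vol) < ⊤ := by
  have hm : Measurable fun x : E => ENNReal.ofReal (‖x‖ ^ s) :=
    ENNReal.measurable_ofReal.comp (measurable_norm.pow_const s)
  refine (J_unif_le vol hm).trans_lt ?_
  have h1 : IntegrableOn (fun x : E => ‖x‖ ^ s) (Metric.ball 0 2) vol := by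
    refine integrableOn_ball_of_norm_le_rpow hd (α := -s) (C := 1) (by linarith) ?_
      (measurable_norm.pow_const s).aestronglyMeasurable
    refine Eventually.of_forall fun x => ?_
    rw [neg_neg, one_mul, Real.norm_of_nonneg (Real.rpow_nonneg (norm_nonneg _) _)]
  have h2 : ∫⁻ z in Metric.ball 0 2, ENNReal.ofReal (‖z‖ ^ s) ∂vol < ⊤ := by
    have h3 := h1.2
    rw [hasFiniteIntegral_iff_norm] at h3
    refine lt_of_le_of_lt (lintegral_mono fun z => ?_) h3
    exact ENNReal.ofReal_le_ofReal (le_abs_self _)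
  exact ENNReal.mul_lt_top (ENNReal.inv_lt_top.2 (Metric.measure_ball_pos vol 0 one_pos)) h2

lemma ae_good (hd : 1 ≤ Module.finrank ℝ E) :
    ∀ᵐ z ∂((unif vol).prod (unif vol)), z.1 - z.2 ≠ 0 ∧ ‖z.1 - z.2‖ ≤ 2 := by
  have := FiniteDimensional.proper ℝ E
  have := unif_prob vol
  have : Nontrivial E := by
    apply Module.nontrivial_of_finrank_pos (R := ℝ)
    omega
  have h2 : ∀ᵐ x ∂(unif vol), x ∈ Metric.ball (0 : E) 1 := by
    rw [unif]
    exact Measure.ae_smul_measure (ae_restrict_mem measurableSet_ball) _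
  have h3 : ∀ᵐ z ∂((unif vol).prod (unif vol)), z.1 ∈ Metric.ball (0 : E) 1 :=
    Measure.quasiMeasurePreserving_fst.ae h2
  have h4 : ∀ᵐ z ∂((unif vol).prod (unif vol)), z.2 ∈ Metric.ball (0 : E) 1 :=
    Measure.quasiMeasurePreserving_snd.ae h2
  have h5 : ∀ᵐ z ∂((unif vol).prod (unif vol)), z.1 - z.2 ≠ 0 := by
    have hm : MeasurableSet {z : E × E | z.1 - z.2 = 0} :=
      measurableSet_eq_fun (measurable_fst.sub measurable_snd) measurable_const
    rw [ae_iff]
    have hset : {z : E × E | ¬ (z.1 - z.2 ≠ 0)} = {z : E × E | z.1 - z.2 = 0} := by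
      ext z; simp
    rw [hset, Measure.measure_prod_null hm]
    refine Eventually.of_forall fun x => ?_
    have h6 : Prod.mk x ⁻¹' {z : E × E | z.1 - z.2 = 0} = {x} := by
      ext y
      simp only [mem_preimage, mem_ofPred_eq, mem_singleton_iff, sub_eq_zero]
      exact eq_comm
    change (unif vol) (Prod.mk x ⁻¹' {z : E × E | z.1 - z.2 = 0}) = 0
    rw [h6, unif, Measure.smul_apply, Measure.restrict_apply (measurableSet_singleton x)]
    have h7 : vol ({x} ∩ Metric.ball 0 1) = 0 :=
      measure_mono_null inter_subset_left (measure_singleton x)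
    rw [h7]
    simp
  filter_upwards [h3, h4, h5] with z hz1 hz2 hz3
  refine ⟨hz3, ?_⟩
  rw [mem_ball_zero_iff] at hz1 hz2
  calc ‖z.1 - z.2‖ ≤ ‖z.1‖ + ‖z.2‖ := norm_sub_le _ _
    _ ≤ 2 := by linarith

end unif

end Pool.Agent.MP_bbfed3_an
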