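import Mathlib
import Pool.Agent.Lib.MP_bbfed3_an.Potential

/-!
A probability measure whose energy is below the value of the potential at infinity.
-/

set_option linter.unusedSectionVars false

namespace Pool.Agent.MP_bbfed3_an

open Set Filter Topology MeasureTheory ENNReal NNReal

variable {E : Type*} [NormedAddCommGroup E] [NormedSpace ℝ E] [FiniteDimensional ℝ E]
  [MeasurableSpace E] [BorelSpace E] (vol : Measure E) [vol.IsAddHaarMeasure]

lemma Jinf_le_unif (V : E → ℝ≥0∞) : Jinf V ≤ J V (unif vol) :=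
  iInf_le (fun μ : ProbabilityMeasure E => J V (μ : Measure E)) ⟨unif vol, unif_prob vol⟩

lemma J_affine (hd : 1 ≤ Module.finrank ℝ E) (U : E → ℝ≥0∞) {s : ℝ} (c K : ℝ≥0∞)
    (hU : ∀ x : E, x ≠ 0 → ‖x‖ ≤ 2 → U x ≤ K + c * ENNReal.ofReal (‖x‖ ^ s)) :
    J U (unif vol) ≤ K + c * J (fun x : E => ENNReal.ofReal (‖x‖ ^ s)) (unif vol) := by
  have := FiniteDimensional.proper ℝ E
  have := unif_prob vol
  have hm : Measurable fun x : E => ENNReal.ofReal (‖x‖ ^ s) :=
    ENNReal.measurable_ofReal.comp (measurable_norm.pow_const s)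
  calc J U (unif vol) ≤ ∫⁻ z, (K + c * ENNReal.ofReal (‖z.1 - z.2‖ ^ s))
        ∂((unif vol).prod (unif vol)) := by
        refine lintegral_mono_ae ?_
        filter_upwards [ae_good vol hd] with z hz using hU _ hz.1 hz.2
    _ = K + c * J (fun x : E => ENNReal.ofReal (‖x‖ ^ s)) (unif vol) := by
        rw [lintegral_add_left measurable_const, lintegral_const, measure_univ, mul_one,
          lintegral_const_mul _ (measurable_diff hm)]
        rfl

lemma J_unif_lt_top (hd : 1 ≤ Module.finrank ℝ E) {α β : ℝ}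
    (hα : -(Module.finrank ℝ E : ℝ) < α) (h : α < β) :
    J (VV α β : E → ℝ≥0∞) (unif vol) < ⊤ := by
  have hfr : (1 : ℝ) ≤ Module.finrank ℝ E := by exact_mod_cast hd
  set m := min α 0 with hm
  have hm1 : m ≤ α := min_le_left _ _
  have hm2 : m ≤ 0 := min_le_right _ _
  have hm3 : -(Module.finrank ℝ E : ℝ) < m := lt_min hα (by linarith)
  set s := (-(Module.finrank ℝ E : ℝ) + m) / 2 with hs
  have hs1 : -(Module.finrank ℝ E : ℝ) < s := by rw [hs]; linarith
  have hs2 : s < m := by rw [hs]; linarith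
  have hs0 : s < 0 := by linarith
  have hsα : s < α := by linarith
  set K : ℝ := -prof s α 1 + powLog β 2 + C₀ α β with hK
  have hbound : ∀ x : E, x ≠ 0 → ‖x‖ ≤ 2 →
      VV α β x ≤ ENNReal.ofReal K + ENNReal.ofReal (1 / (-s)) * ENNReal.ofReal (‖x‖ ^ s) := by
    intro x hx hx2
    have hr : 0 < ‖x‖ := norm_pos_iff.2 hx
    rw [VV, vr, if_neg hr.ne']
    have h1 := prof_ge hsα hr
    have h2 := powLog_mono β hr hx2
    have h3 : powLog s ‖x‖ = ‖x‖ ^ s / s := by simp [powLog, hs0.ne]
    have h4 : prof α β ‖x‖ + C₀ α β ≤ K + 1 / (-s) * ‖x‖ ^ s := by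
      have h5 : prof s α ‖x‖ = -powLog s ‖x‖ + powLog α ‖x‖ := rfl
      have h6 : prof α β ‖x‖ = -powLog α ‖x‖ + powLog β ‖x‖ := rfl
      have h7 : 1 / (-s) * ‖x‖ ^ s = -(‖x‖ ^ s / s) := by
        have := hs0.ne
        field_simp
      rw [h7, hK]
      rw [h5, h3] at h1
      rw [h6]
      linarith
    calc ENNReal.ofReal (prof α β ‖x‖ + C₀ α β) ≤ ENNReal.ofReal (K + 1 / (-s) * ‖x‖ ^ s) :=
          ENNReal.ofReal_le_ofReal h4
      _ ≤ ENNReal.ofReal K + ENNReal.ofReal (1 / (-s) * ‖x‖ ^ s) := ENNReal.ofReal_add_le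
      _ = _ := by rw [ENNReal.ofReal_mul (by rw [one_div, inv_nonneg]; linarith)]
  refine (J_affine vol hd _ _ _ hbound).trans_lt ?_
  refine ENNReal.add_lt_top.2 ⟨ENNReal.ofReal_lt_top, ?_⟩
  exact ENNReal.mul_lt_top ENNReal.ofReal_lt_top (J_unif_rpow_lt_top vol hd hs1)

lemma J_map_smul {U : E → ℝ≥0∞} (hU : Measurable U) (μ : Measure E) [IsProbabilityMeasure μ]
    (c : ℝ) : J U (μ.map (fun x => c • x)) = J (fun x => U (c • x)) μ := by
  have := FiniteDimensional.proper ℝ E
  have hm : Measurable fun x : E => c • x := measurable_const_smul c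
  rw [J, Measure.map_prod_map _ _ hm hm, lintegral_map (measurable_diff hU) (hm.prodMap hm), J]
  refine lintegral_congr fun z => ?_
  simp [smul_sub]

theorem exists_gap (hd : 1 ≤ Module.finrank ℝ E) {α β : ℝ}
    (hα : -(Module.finrank ℝ E : ℝ) < α) (h : α < β) :
    ∃ L g R : ℝ, 0 < g ∧ g ≤ L ∧ 0 ≤ R ∧
      (∀ x : E, R ≤ ‖x‖ → ENNReal.ofReal L ≤ VV α β x) ∧
      Jinf (VV α β : E → ℝ≥0∞) ≤ ENNReal.ofReal (L - g) := by
  have := FiniteDimensional.proper ℝ E
  let vol : Measure E := Measure.addHaar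
  have hprob := unif_prob vol
  have hVR : ∀ {L R : ℝ}, 0 < R → (∀ r, R ≤ r → L ≤ prof α β r + C₀ α β) →
      ∀ x : E, R ≤ ‖x‖ → ENNReal.ofReal L ≤ VV α β x := by
    intro L R hR hLR x hx
    rw [VV, vr, if_neg (hR.trans_le hx).ne']
    exact ENNReal.ofReal_le_ofReal (hLR _ hx)
  rcases le_or_gt 0 β with hβ | hβ
  · have hfin := J_unif_lt_top vol hd hα h
    set j := (J (VV α β : E → ℝ≥0∞) (unif vol)).toReal with hj
    have hj0 : 0 ≤ j := ENNReal.toReal_nonneg
    have hev := (prof_tendsto_atTop h hβ).eventually_ge_atTop (j + 1 - C₀ α β)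
    obtain ⟨R, hR⟩ := eventually_atTop.1 hev
    refine ⟨j + 1, 1, max R 1, one_pos, by linarith, by positivity,
      hVR (lt_of_lt_of_le one_pos (le_max_right _ _)) (fun r hr => ?_), ?_⟩
    · have := hR r ((le_max_left _ _).trans hr)
      linarith
    · rw [add_sub_cancel_right, hj, ENNReal.ofReal_toReal hfin.ne]
      exact Jinf_le_unif vol _
  · have hα0 : α < 0 := h.trans hβ
    set A := J (fun x : E => ENNReal.ofReal (‖x‖ ^ α)) (unif vol) with hA
    have hAfin : A < ⊤ := J_unif_rpow_lt_top vol hd hα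
    set a := A.toReal with ha
    have ha0 : 0 ≤ a := ENNReal.toReal_nonneg
    have hAa : A = ENNReal.ofReal a := (ENNReal.ofReal_toReal hAfin.ne).symm
    have hC : 0 < C₀ α β := by
      rw [C₀, abs_pos]
      have h1 : prof α β 1 = -(1 / α) + 1 / β := by
        simp [prof, powLog, hβ.ne, hα0.ne]
      rw [h1]
      intro h2
      have h3 : 1 / β = 1 / α := by linarith
      have h4 : α = β := by
        have := hβ.ne
        have := hα0.ne
        field_simp at h3
        linarith
      exact h.ne h4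
    -- choose the scale
    have hc1 : Tendsto (fun l : ℝ => l ^ (α - β) * (a / (-α))) atTop (𝓝 (0 * (a / (-α)))) := by
      have h5 := tendsto_rpow_neg_atTop (y := β - α) (by linarith)
      have h6 : -(β - α) = α - β := by ring
      rw [h6] at h5
      exact h5.mul_const _
    rw [zero_mul] at hc1
    have hc2 : Tendsto (fun l : ℝ => (2 * l) ^ β / (-β)) atTop (𝓝 0) := by
      have h5 := tendsto_rpow_neg_atTop (y := -β) (by linarith)
      rw [neg_neg] at h5
      have h6 := (h5.comp (tendsto_id.const_mul_atTop (two_pos : (0 : ℝ) < 2))).div_const (-β)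
      simpa using h6
    have hpos : (0 : ℝ) < 2 ^ β / (2 * (-β)) := by
      have : (0 : ℝ) < 2 ^ β := Real.rpow_pos_of_pos two_pos _
      have : 0 < -β := by linarith
      positivity
    obtain ⟨l, hl0, hl1, hl2⟩ := ((eventually_gt_atTop (0 : ℝ)).and
      ((hc1.eventually_lt_const hpos).and (hc2.eventually_lt_const hC))).exists
    set κ := (2 * l) ^ β / (-β) with hκ
    have hκ0 : 0 < κ := by
      have : (0 : ℝ) < (2 * l) ^ β := Real.rpow_pos_of_pos (by positivity) _
      have : 0 < -β := by linarith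
      positivity
    have hkey : l ^ α / (-α) * a ≤ κ / 2 := by
      have h7 : l ^ α = l ^ β * l ^ (α - β) := by
        rw [← Real.rpow_add hl0]; congr 1; ring
      have h8 : κ = 2 ^ β * l ^ β / (-β) := by
        rw [hκ, Real.mul_rpow two_pos.le hl0.le]
      have h9 : 0 < l ^ β := Real.rpow_pos_of_pos hl0 _
      calc l ^ α / (-α) * a = l ^ β * (l ^ (α - β) * (a / (-α))) := by rw [h7]; ring
        _ ≤ l ^ β * (2 ^ β / (2 * (-β))) := mul_le_mul_of_nonneg_left hl1.le h9.le
        _ = κ / 2 := by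
          rw [h8]
          have := hβ.ne
          field_simp
    have hJ : Jinf (VV α β : E → ℝ≥0∞) ≤ ENNReal.ofReal (C₀ α β - κ / 2) := by
      have hm : Measurable fun x : E => l • x := measurable_const_smul l
      have hp : IsProbabilityMeasure ((unif vol).map fun x => l • x) :=
        Measure.isProbabilityMeasure_map hm.aemeasurable
      have h10 : Jinf (VV α β : E → ℝ≥0∞) ≤ J (VV α β) ((unif vol).map fun x => l • x) :=
        iInf_le (fun μ : ProbabilityMeasure E => J (VV α β) (μ : Measure E)) ⟨_, hp⟩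
      refine h10.trans ?_
      rw [J_map_smul (VV_continuous h).measurable]
      have h11 : ∀ x : E, x ≠ 0 → ‖x‖ ≤ 2 → VV α β (l • x) ≤
          ENNReal.ofReal (C₀ α β - κ) + ENNReal.ofReal (l ^ α / (-α)) *
            ENNReal.ofReal (‖x‖ ^ α) := by
        intro x hx hx2
        have hr : 0 < ‖x‖ := norm_pos_iff.2 hx
        have hnx : ‖l • x‖ = l * ‖x‖ := by rw [norm_smul, Real.norm_of_nonneg hl0.le]
        rw [VV, vr, hnx, if_neg (by positivity), ← ENNReal.ofReal_mul (by
          have : 0 < -α := by linarith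
          have : 0 < l ^ α := Real.rpow_pos_of_pos hl0 _
          positivity)]
        refine le_trans (ENNReal.ofReal_le_ofReal ?_) ENNReal.ofReal_add_le
        have h12 : prof α β (l * ‖x‖) = -((l * ‖x‖) ^ α / α) + (l * ‖x‖) ^ β / β := by
          simp [prof, powLog, hβ.ne, hα0.ne]
        have h13 : (2 * l) ^ β ≤ (l * ‖x‖) ^ β :=
          Real.rpow_le_rpow_of_nonpos (by positivity) (by nlinarith) hβ.le
        have h14 : (l * ‖x‖) ^ β / β ≤ -κ := by
          rw [hκ, div_neg, neg_neg]
          exact div_le_div_of_nonpos_of_le hβ.le h13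
        have h15 : -((l * ‖x‖) ^ α / α) = l ^ α / (-α) * ‖x‖ ^ α := by
          rw [Real.mul_rpow hl0.le hr.le]
          have := hα0.ne
          field_simp
        rw [h12, h15]
        linarith
      refine (J_affine vol hd _ _ _ h11).trans ?_
      rw [← hA, hAa, ← ENNReal.ofReal_mul (by
          have : 0 < -α := by linarith
          have : 0 < l ^ α := Real.rpow_pos_of_pos hl0 _
          positivity), ← ENNReal.ofReal_add (by linarith) (by
          have : 0 < -α := by linarith
          have : 0 < l ^ α := Real.rpow_pos_of_pos hl0 _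
          positivity)]
      exact ENNReal.ofReal_le_ofReal (by linarith)
    have hev := (prof_tendsto_inf_zero h hβ).eventually_const_lt
      (by linarith : -(κ / 4) < 0)
    obtain ⟨R, hR⟩ := eventually_atTop.1 hev
    refine ⟨C₀ α β - κ / 4, κ / 4, max R 1, by positivity, by linarith, by positivity,
      hVR (lt_of_lt_of_le one_pos (le_max_right _ _)) (fun r hr => ?_), ?_⟩
    · have := hR r ((le_max_left _ _).trans hr)
      linarith
    · have h16 : C₀ α β - κ / 4 - κ / 4 = C₀ α β - κ / 2 := by ring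
      rw [h16]
      exact hJ

end Pool.Agent.MP_bbfed3_an
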